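import Pool.Agent.Lib.helper10.Kp1
import Pool.Agent.Lib.helper10.Pi2

namespace Pool.Agent.Results.MP_8f64b1_lc.Pi2Complete

open Pool.Agent.Cx Pool.Agent.Kp Polynomial List

/-- the number of vertices and the list of arcs -/
abbrev Inst := ℕ × List (ℕ × ℕ)

/-- arcs join distinct vertices and are listed once -/
def Valid (z : Inst) : Prop := z.2.Nodup ∧ ¬ ∃ a ∈ z.2, ¬ (a.1 < z.1 ∧ a.2 < z.1 ∧ a.1 ≠ a.2)

/-- every induced subdigraph has a kernel -/
def KP (z : Inst) : Prop := ∀ U : Set ℕ, (∀ v ∈ U, v < z.1) → ∃ K, IsKernel (fun a b => (a, b) ∈ z.2) U K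

abbrev En := ℕ × Lit × Lit

def tv : Lit := (0, true)

def ents (z : List (ℕ × ℕ) × CNF) : List En := (0, tv, tv) ::
  ((range z.1.length).map (fun j => (j + 1, ((z.1.getD j (0, 0)).2 + 1, true),
      ((z.1.getD j (0, 0)).1 + 1, true))) ++
    (range z.2.length).flatMap (fun c => (z.2.getD c []).map fun l =>
      (z.1.length + 1 + c, (l.1 + 1, l.2), (l.1 + 1, l.2)))) ++
  [(z.1.length + 1 + z.2.length, tv, tv)]

def st (P : List En) (k : ℕ) : ℕ := (P.getD k (0, tv, tv)).1

def lt (P : List En) (x : ℕ) : Lit :=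
  if x % 10 = 0 then (P.getD (x / 10) (0, tv, tv)).2.1 else (P.getD (x / 10) (0, tv, tv)).2.2

open Classical in
noncomputable def gr (P : List En) : Inst := (10 * P.length - 5,
  ((range (10 * P.length - 5)).flatMap fun a => (range (10 * P.length - 5)).map fun b => (a, b)).filter fun a =>
    decide (arc P.length (st P) (lt P) a.1 a.2))

lemma pt_gr : PT gr := by
  have : PP fun y : List En × ℕ × ℕ => arc y.1.length (st y.1) (lt y.1) y.2.1 y.2.2 := by
    unfold arc ow tw dm cf st lt; fun_prop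
  have := this.decide (inst := fun _ => Classical.propDecidable _)
  exact PT.pair (by fun_prop) (PT.filter this (by fun_prop))

lemma gr_valid (P : List En) : Valid (gr P) := by
  refine ⟨(nodup_range.product nodup_range).filter _, ?_⟩
  rintro ⟨⟨a, b⟩, h, g⟩
  have h : (a < 10 * P.length - 5 ∧ b < 10 * P.length - 5) ∧ arc P.length (st P) (lt P) a b := by
    simpa [gr] using h
  refine g ⟨h.1.1, h.1.2, ?_⟩
  rintro (rfl : a = b)
  have := h.2
  simp only [arc, ow, tw, dm, cf, not_true, and_false, or_false] at this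
  omega

lemma gr_kp (P : List En) : KP (gr P) ↔ ∀ U : Set ℕ, (∀ v ∈ U, v < 10 * P.length - 5) →
    ∃ K, IsKernel (arc P.length (st P) (lt P)) U K := by
  refine forall₂_congr fun U hU => exists_congr fun K => and_congr_right fun hK => ?_
  have : ∀ a ∈ U, ∀ b ∈ K, (a, b) ∈ (gr P).2 ↔ arc P.length (st P) (lt P) a b := fun a ha b hb => by
    simp [gr, show a < 10 * P.length - 5 from hU a ha, show b < 10 * P.length - 5 from hU b (hK hb)]
  exact and_congr (forall₂_congr fun a ha => forall₂_congr fun b hb => (this a (hK ha) b hb).not)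
    (forall₃_congr fun a ha _ => exists_congr fun b => and_congr_right fun hb => this a ha b hb)

variable (z : List (ℕ × ℕ) × CNF)

lemma mem_ents {e : En} : e ∈ ents z ↔ e = (0, tv, tv) ∨ (∃ j < z.1.length, (j + 1,
    ((z.1.getD j (0, 0)).2 + 1, true), ((z.1.getD j (0, 0)).1 + 1, true)) = e) ∨
    (∃ c < z.2.length, ∃ l ∈ z.2.getD c [], (z.1.length + 1 + c, (l.1 + 1, l.2), (l.1 + 1, l.2)) = e) ∨
    e = (z.1.length + 1 + z.2.length, tv, tv) := by
  simp only [ents, cons_append, mem_cons, mem_append, mem_map, mem_flatMap, mem_range, not_mem_nil,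
    or_false, or_assoc]

lemma shape : ∃ M, ents z = (0, tv, tv) :: M ++ [(z.1.length + 1 + z.2.length, tv, tv)] ∧
    M.Pairwise (fun a b => a.1 ≤ b.1) ∧ ∀ e ∈ M, 0 < e.1 ∧ e.1 < z.1.length + 1 + z.2.length := by
  refine ⟨_, rfl, ?_, ?_⟩
  · simp only [pairwise_append, pairwise_map, pairwise_flatMap, mem_map, mem_flatMap, mem_range]
    refine ⟨pairwise_lt_range.imp (by omega), ⟨fun _ _ => pairwise_of_forall (by simp),
      pairwise_lt_range.imp ?_⟩, ?_⟩
    · rintro a b h _ ⟨_, -, rfl⟩ _ ⟨_, -, rfl⟩; simp only; omega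
    · rintro _ ⟨j, hj, rfl⟩ _ ⟨c, -, l, -, rfl⟩; simp only; omega
  · simp only [mem_append, mem_map, mem_flatMap, mem_range]
    rintro _ (⟨j, hj, rfl⟩ | ⟨c, hc, l, -, rfl⟩) <;> simp only <;> omega

lemma facts : 2 ≤ (ents z).length ∧ st (ents z) 0 = 0 ∧
    st (ents z) ((ents z).length - 1) = z.1.length + 1 + z.2.length ∧
    (∀ k < (ents z).length, st (ents z) k = 0 → k = 0) ∧
    (∀ k, k + 1 < (ents z).length → st (ents z) k < z.1.length + 1 + z.2.length) ∧
    ∀ k < (ents z).length, ∀ k' < (ents z).length, st (ents z) k' = st (ents z) k + 1 → k < k' := by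
  obtain ⟨M, e, p, q⟩ := shape z
  have P : (ents z).Pairwise fun a b => a.1 ≤ b.1 := by
    rw [e]
    simp only [cons_append, pairwise_cons, pairwise_append, p, zero_le, implies_true, true_and,
      mem_singleton, forall_eq, not_mem_nil, Pairwise.nil, IsEmpty.forall_iff]
    exact fun a ha => (q a ha).2.le
  refine ⟨by simp [e], by simp [e, st], by simp [e, st], fun k hk h => ?_, fun k hk => ?_,
    fun k hk k' hk' h => ?_⟩
  · rcases k with _ | k
    · rfl
    simp only [e, st, cons_append, getD_cons_succ, length_cons] at h hk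
    rw [getD_eq_getElem _ _ (by omega)] at h
    rcases mem_append.1 (getElem_mem (l := M ++ [(z.1.length + 1 + z.2.length, tv, tv)]) (n := k)
      (by omega)) with g | g
    · exact absurd (q _ g).1 (by omega)
    · rw [mem_singleton.1 g] at h; simp at h
  · rcases k with _ | k
    · simp [e, st]
    simp only [e, st, cons_append, getD_cons_succ, length_cons, length_append, length_nil] at hk ⊢
    rw [getD_append _ _ _ _ (by omega), getD_eq_getElem _ _ (by omega)]
    exact (q _ (getElem_mem _)).2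
  · by_contra! g
    simp only [st, getD_eq_getElem _ _ hk, getD_eq_getElem _ _ hk'] at h
    rcases g.eq_or_lt with rfl | g
    · omega
    · have := pairwise_iff_getElem.1 P k' k hk' hk g
      omega

lemma lt_eq (P : List En) (k : ℕ) (b : Bool) : lt P (10 * k + b.toNat) =
    if b then (P.getD k (0, tv, tv)).2.2 else (P.getD k (0, tv, tv)).2.1 := by
  cases b <;> simp [lt, show (10 * k + 1) / 10 = k by omega]

lemma good_iff : Q2 z ↔ Good (ents z).length (st (ents z)) (lt (ents z)) := by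
  simp only [Good, (facts z).2.2.1, lt_eq]
  constructor
  · intro h β
    have ix : ∀ e ∈ ents z, ∃ k < (ents z).length, (ents z).getD k (0, tv, tv) = e := fun e he => by
      obtain ⟨k, hk, rfl⟩ := getElem_of_mem he
      exact ⟨k, hk, getD_eq_getElem _ _ hk⟩
    choose! κ k1 k2 using ix
    obtain ⟨τ, t1, t2⟩ := h fun j => β (κ (j + 1, ((z.1.getD j (0, 0)).2 + 1, true),
      ((z.1.getD j (0, 0)).1 + 1, true)))
    refine ⟨fun v => Nat.casesOn v true τ, fun t ht => ?_⟩
    have : ∃ e ∈ ents z, e.1 = t ∧ (Nat.casesOn (if β (κ e) then e.2.2 else e.2.1).1 true τ : Bool) =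
        (if β (κ e) then e.2.2 else e.2.1).2 := by
      by_cases a : t = 0
      · exact ⟨_, (mem_ents z).2 (Or.inl rfl), a.symm, by simp [tv]⟩
      by_cases b : t ≤ z.1.length
      · refine ⟨_, (mem_ents z).2 (Or.inr (Or.inl ⟨t - 1, by omega, rfl⟩)), by simp only; omega, ?_⟩
        have := t1 (t - 1) (by omega)
        split_ifs at this ⊢ <;> exact this
      by_cases c : t < z.1.length + 1 + z.2.length
      · obtain ⟨i, rfl⟩ : ∃ i, t = z.1.length + 1 + i := ⟨t - (z.1.length + 1), by omega⟩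
        obtain ⟨l, l1, l2⟩ := t2 z.2[i] (getElem_mem (by omega))
        exact ⟨_, (mem_ents z).2 (Or.inr (Or.inr (Or.inl ⟨i, by omega, l,
          by rwa [getD_eq_getElem _ _ (by omega)], rfl⟩))), rfl, by simpa using l2⟩
      · exact ⟨_, (mem_ents z).2 (Or.inr (Or.inr (Or.inr rfl))), by simp only; omega, by simp [tv]⟩
    obtain ⟨e, he, e1, e2⟩ := this
    exact ⟨κ e, k1 e he, by rw [st, k2 e he, e1], by rw [k2 e he]; exact e2⟩
  · intro h f
    obtain ⟨τ, h⟩ := h fun k => f (st (ents z) k - 1)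
    have : ∀ t ≤ z.1.length + 1 + z.2.length, ∃ e ∈ ents z, e.1 = t ∧
        τ (if f (t - 1) then e.2.2 else e.2.1).1 = (if f (t - 1) then e.2.2 else e.2.1).2 := by
      intro t ht
      obtain ⟨k, k1, k2, k3⟩ := h t ht
      rw [k2] at k3
      exact ⟨_, by rw [getD_eq_getElem _ _ k1]; exact getElem_mem _, k2, k3⟩
    refine ⟨fun v => τ (v + 1), fun j hj => ?_, fun c hc => ?_⟩
    · obtain ⟨e, he, e1, e2⟩ := this (j + 1) (by omega)
      rcases (mem_ents z).1 he with rfl | ⟨i, hi, rfl⟩ | ⟨i, hi, l, -, rfl⟩ | rfl <;>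
        simp only at e1 <;> try omega
      obtain rfl : i = j := by omega
      rw [Nat.add_sub_cancel] at e2
      split_ifs at e2 ⊢ <;> exact e2
    · obtain ⟨j, hj, rfl⟩ := getElem_of_mem hc
      obtain ⟨e, he, e1, e2⟩ := this (z.1.length + 1 + j) (by omega)
      rcases (mem_ents z).1 he with rfl | ⟨i, hi, rfl⟩ | ⟨i, hi, l, hl, rfl⟩ | rfl <;>
        simp only at e1 <;> try omega
      obtain rfl : i = j := by omega
      exact ⟨l, by rwa [getD_eq_getElem _ _ hj] at hl, by simpa using e2⟩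

lemma hard : Hard2 fun z => Valid z ∧ KP z :=
  hard2_q2.red (r := fun z => gr (ents z)) (pt_gr.comp (by unfold ents; fun_prop)) fun z => by
    obtain ⟨a, b, c, d, e, f⟩ := facts z
    rw [and_iff_right (gr_valid _), gr_kp, good_iff]
    exact ⟨complete a d (c ▸ e), sound a b f⟩

def ver (y : Inst × List Bool × List Bool) : Prop := Valid y.1 ∧
  (¬ ∃ v < y.1.1, y.2.2.getD v false = true ∧ ¬ y.2.1.getD v false = true) ∧
  (¬ ∃ a < y.1.1, ∃ b < y.1.1, y.2.2.getD a false = true ∧ y.2.2.getD b false = true ∧ (a, b) ∈ y.1.2) ∧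
  ¬ ∃ v < y.1.1, y.2.1.getD v false = true ∧ ¬ y.2.2.getD v false = true ∧
    ¬ ∃ w < y.1.1, y.2.2.getD w false = true ∧ (v, w) ∈ y.1.2

lemma bits (n : ℕ) (K : Set ℕ) : ∃ w : List Bool, w.length = n ∧
    ∀ v < n, w.getD v false = true ↔ v ∈ K := by
  classical
  exact ⟨(range n).map fun v => decide (v ∈ K), by simp,
    fun v hv => by simp [getD_eq_getElem?_getD, hv]⟩

lemma mem : InPi2 (Lang fun z => Valid z ∧ KP z) := by
  obtain ⟨V, pV, e⟩ : PP ver := by unfold ver Valid; fun_prop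
  refine inPi2_Lang pV X X fun z => ?_
  have sz : z.1 ≤ size z := by
    have : size z = _ := size_pair z.1 z.2
    simp only [size_nat] at this; omega
  simp only [← e, eval_X]
  constructor
  · rintro ⟨v, h⟩ u -
    obtain ⟨K, k1, k2, k3⟩ := h {v | v < z.1 ∧ u.getD v false = true} fun _ g => g.1
    obtain ⟨w, w1, w2⟩ := bits z.1 K
    refine ⟨w, by omega, v, ?_, ?_, ?_⟩
    · rintro ⟨a, ha, g, g'⟩
      exact g' (k1 ((w2 a ha).1 g)).2
    · rintro ⟨a, ha, b, hb, g1, g2, g3⟩
      exact k2 a ((w2 a ha).1 g1) b ((w2 b hb).1 g2) g3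
    · rintro ⟨a, ha, g1, g2, g3⟩
      obtain ⟨b, b1, b2⟩ := k3 a ⟨ha, g1⟩ fun c => g2 ((w2 a ha).2 c)
      exact g3 ⟨b, (k1 b1).1, (w2 b (k1 b1).1).2 b1, b2⟩
  · intro h
    refine ⟨(h [] (by simp)).choose_spec.2.1, fun U hU => ?_⟩
    obtain ⟨u, u1, u2⟩ := bits z.1 U
    obtain ⟨w, -, -, a, b, c⟩ := h u (by omega)
    refine ⟨{v | v < z.1 ∧ w.getD v false = true}, fun v hv => (u2 v hv.1).1 ?_,
      fun x hx y hy g => b ⟨x, hx.1, y, hy.1, hx.2, hy.2, g⟩, fun v hv g => ?_⟩
    · exact not_not.1 fun g => a ⟨v, hv.1, hv.2, g⟩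
    · obtain ⟨x, x1, x2, x3⟩ := not_not.1 fun g' =>
        c ⟨v, hU v hv, (u2 v (hU v hv)).2 hv, fun q => g ⟨hU v hv, q⟩, g'⟩
      exact ⟨x, ⟨x1, x2⟩, x3⟩

/-- kernel-perfectness is complete for Pi-2-p; it lies in coNP only if Pi-2-p and NP do -/
theorem result : InPi2 (Lang fun z => Valid z ∧ KP z) ∧ Pi2Hard (Lang fun z => Valid z ∧ KP z) ∧
    (InCoNP (Lang fun z => Valid z ∧ KP z) →
      (∀ L, InPi2 L → InCoNP L) ∧ ∀ L, InNP L ↔ InCoNP L) :=
  ⟨mem, hard.pi2Hard, fun h => ⟨hard.sub_conp h, np_eq_conp (hard.hard.np_sub_conp h)⟩⟩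

end Pool.Agent.Results.MP_8f64b1_lc.Pi2Complete
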